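import Pool.Agent.Helper71.PR.Goals

/-!
# Packet EMB3: restriction to the first three columns
-/

set_option autoImplicit false

namespace Pool.Agent.Helper42.PR

open Matrix Filter Topology Pool.Agent.Helper71.PR

/-- the block matrix `x ⊕ 1` -/
def E {m : ℕ} (x : Mt 3) : Mt (3 + m) :=
  (Matrix.fromBlocks x 0 0 (1 : Matrix (Fin m) (Fin m) ℝ)).submatrix finSumFinEquiv.symm finSumFinEquiv.symm

theorem E_ll {m : ℕ} (x : Mt 3) (a b : Fin 3) : (E x : Mt (3 + m)) (Fin.castAdd m a) (Fin.castAdd m b) = x a b := by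
  simp [E]

theorem E_lr {m : ℕ} (x : Mt 3) (a : Fin 3) (b : Fin m) : (E x : Mt (3 + m)) (Fin.castAdd m a) (Fin.natAdd 3 b) = 0 := by
  simp [E]

theorem E_rl {m : ℕ} (x : Mt 3) (a : Fin m) (b : Fin 3) : (E x : Mt (3 + m)) (Fin.natAdd 3 a) (Fin.castAdd m b) = 0 := by
  simp [E]

theorem E_rr {m : ℕ} (x : Mt 3) (a b : Fin m) : (E x : Mt (3 + m)) (Fin.natAdd 3 a) (Fin.natAdd 3 b) =
    (1 : Matrix (Fin m) (Fin m) ℝ) a b := by
  simp [E]

theorem ext4 {m : ℕ} {A B : Mt (3 + m)} (h1 : ∀ a b, A (Fin.castAdd m a) (Fin.castAdd m b) = B (Fin.castAdd m a) (Fin.castAdd m b))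
    (h2 : ∀ a b, A (Fin.castAdd m a) (Fin.natAdd 3 b) = B (Fin.castAdd m a) (Fin.natAdd 3 b))
    (h3 : ∀ a b, A (Fin.natAdd 3 a) (Fin.castAdd m b) = B (Fin.natAdd 3 a) (Fin.castAdd m b))
    (h4 : ∀ a b, A (Fin.natAdd 3 a) (Fin.natAdd 3 b) = B (Fin.natAdd 3 a) (Fin.natAdd 3 b)) : A = B := by
  ext i j
  refine Fin.addCases (fun a => ?_) (fun a => ?_) i <;> refine Fin.addCases (fun b => ?_) (fun b => ?_) j
  · exact h1 a b
  · exact h2 a b
  · exact h3 a b
  · exact h4 a b

theorem E_mul {m : ℕ} (x y : Mt 3) : (E (x * y) : Mt (3 + m)) = E x * E y := by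
  unfold E
  rw [Matrix.submatrix_mul_equiv _ _ _ finSumFinEquiv.symm _, Matrix.fromBlocks_multiply]
  simp

theorem E_one {m : ℕ} : (E (1 : Mt 3) : Mt (3 + m)) = 1 := by
  unfold E
  rw [Matrix.fromBlocks_one, Matrix.submatrix_one_equiv]

theorem E_det {m : ℕ} (x : Mt 3) : (E x : Mt (3 + m)).det = x.det := by
  unfold E
  rw [Matrix.det_submatrix_equiv_self, Matrix.det_fromBlocks_zero₂₁, Matrix.det_one, mul_one]

theorem E_cont {m : ℕ} : Continuous (fun x : Mt 3 => (E x : Mt (3 + m))) := by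
  unfold E
  exact (Continuous.matrix_fromBlocks continuous_id continuous_const continuous_const continuous_const).matrix_submatrix _ _

theorem E_upp {m : ℕ} {u : Mt 3} (hu : UppU u) : UppU (E u : Mt (3 + m)) := by
  constructor
  · intro i
    refine Fin.addCases (fun a => ?_) (fun a => ?_) i
    · rw [E_ll, hu.1]
    · rw [E_rr, Matrix.one_apply_eq]
  · intro i j
    refine Fin.addCases (fun a => ?_) (fun a => ?_) i <;> refine Fin.addCases (fun b => ?_) (fun b => ?_) j <;> intro h
    · rw [E_ll]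
      exact hu.2 a b h
    · rw [E_lr]
    · rw [E_rl]
    · rw [E_rr, Matrix.one_apply_ne]
      rintro rfl
      exact lt_irrefl _ h

theorem E_low {m : ℕ} {l : Mt 3} (hl : LowT l) : LowT (E l : Mt (3 + m)) := by
  intro i j
  refine Fin.addCases (fun a => ?_) (fun a => ?_) i <;> refine Fin.addCases (fun b => ?_) (fun b => ?_) j <;> intro h
  · rw [E_ll]
    exact hl a b h
  · rw [E_lr]
  · rw [E_rl]
  · rw [E_rr, Matrix.one_apply_ne]
    rintro rfl
    exact lt_irrefl _ h

/-- the extension of a permutation by the identity -/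
def ep {m : ℕ} (σ : Equiv.Perm (Fin 3)) : Equiv.Perm (Fin (3 + m)) :=
  (finSumFinEquiv.symm.trans (Equiv.sumCongr σ (Equiv.refl (Fin m)))).trans finSumFinEquiv

theorem ep_l {m : ℕ} (σ : Equiv.Perm (Fin 3)) (a : Fin 3) : (ep σ : Equiv.Perm (Fin (3 + m))) (Fin.castAdd m a) =
    Fin.castAdd m (σ a) := by
  simp [ep]

theorem ep_r {m : ℕ} (σ : Equiv.Perm (Fin 3)) (a : Fin m) : (ep σ : Equiv.Perm (Fin (3 + m))) (Fin.natAdd 3 a) =
    Fin.natAdd 3 a := by
  simp [ep]

theorem E_perm {m : ℕ} (x : Mt 3) (σ : Equiv.Perm (Fin 3)) : (E (x.submatrix id σ) : Mt (3 + m)) =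
    (E x : Mt (3 + m)).submatrix id (ep σ) := by
  apply ext4
  · intro a b
    rw [E_ll, Matrix.submatrix_apply, Matrix.submatrix_apply, id, id, ep_l, E_ll]
  · intro a b
    rw [E_lr, Matrix.submatrix_apply, id, ep_r, E_lr]
  · intro a b
    rw [E_rl, Matrix.submatrix_apply, id, ep_l, E_rl]
  · intro a b
    rw [E_rr, Matrix.submatrix_apply, id, ep_r, E_rr]

/-- the extension of the diagonal entries by `1` -/
def ed {m : ℕ} (d : Fin 3 → ℝ) : Fin (3 + m) → ℝ := fun i => Fin.addCases (motive := fun _ => ℝ) d (fun _ => 1) i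

theorem ed_l {m : ℕ} (d : Fin 3 → ℝ) (a : Fin 3) : (ed d : Fin (3 + m) → ℝ) (Fin.castAdd m a) = d a := by
  simp [ed]

theorem ed_r {m : ℕ} (d : Fin 3 → ℝ) (a : Fin m) : (ed d : Fin (3 + m) → ℝ) (Fin.natAdd 3 a) = 1 := by
  simp [ed]

theorem ne_lr {m : ℕ} (a : Fin 3) (b : Fin m) : Fin.castAdd m a ≠ Fin.natAdd 3 b := by
  intro h
  have := congrArg Fin.val h
  simp only [Fin.val_castAdd, Fin.val_natAdd] at this
  omega

theorem E_diag {m : ℕ} (d : Fin 3 → ℝ) : (E (diagonal d) : Mt (3 + m)) = diagonal (ed d) := by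
  apply ext4
  · intro a b
    rw [E_ll]
    by_cases h : a = b
    · subst h
      rw [Matrix.diagonal_apply_eq, Matrix.diagonal_apply_eq, ed_l]
    · rw [Matrix.diagonal_apply_ne _ h, Matrix.diagonal_apply_ne _ (fun h' => h (Fin.castAdd_injective _ _ h'))]
  · intro a b
    rw [E_lr, Matrix.diagonal_apply_ne _ (ne_lr a b)]
  · intro a b
    rw [E_rl, Matrix.diagonal_apply_ne _ (ne_lr b a).symm]
  · intro a b
    rw [E_rr]
    by_cases h : a = b
    · subst h
      rw [Matrix.one_apply_eq, Matrix.diagonal_apply_eq, ed_r]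
    · rw [Matrix.one_apply_ne h, Matrix.diagonal_apply_ne _ (fun h' => h ((Fin.natAdd_inj 3).1 h'))]

theorem E_trans {m : ℕ} (i j : Fin 3) (c : ℝ) : (E (Matrix.transvection i j c) : Mt (3 + m)) =
    Matrix.transvection (Fin.castAdd m i) (Fin.castAdd m j) c := by
  apply ext4
  · intro a b
    rw [E_ll, Matrix.transvection, Matrix.transvection, Matrix.add_apply, Matrix.add_apply]
    congr 1
    · simp only [Matrix.one_apply]
      by_cases h : a = b
      · simp [h]
      · have h' : Fin.castAdd m a ≠ Fin.castAdd m b := fun h' => h (Fin.castAdd_injective _ _ h')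
        simp [h, h']
    · simp only [Matrix.single_apply]
      have h1 : ∀ p q : Fin 3, (Fin.castAdd m p = Fin.castAdd m q) ↔ p = q := fun p q =>
        ⟨fun h' => Fin.castAdd_injective _ _ h', fun h' => by rw [h']⟩
      simp only [h1]
  · intro a b
    rw [E_lr, Matrix.transvection, Matrix.add_apply, Matrix.one_apply_ne (ne_lr a b), Matrix.single_apply_of_col_ne]
    · simp
    · exact fun h => ne_lr j b h
  · intro a b
    rw [E_rl, Matrix.transvection, Matrix.add_apply, Matrix.one_apply_ne (ne_lr b a).symm, Matrix.single_apply_of_row_ne]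
    · simp
    · exact fun h => ne_lr i a h
  · intro a b
    rw [E_rr, Matrix.transvection, Matrix.add_apply, Matrix.single_apply_of_row_ne]
    · simp only [Matrix.one_apply, add_zero]
      by_cases h : a = b
      · simp [h]
      · have h' : Fin.natAdd 3 a ≠ Fin.natAdd 3 b := fun h' => h ((Fin.natAdd_inj 3).1 h')
        simp [h, h']
    · exact fun h => ne_lr i a h

theorem emb3 : G_EMB3 := by
  intro n hn Γ S hS k hk
  obtain ⟨m, rfl⟩ : ∃ m, n = 3 + m := ⟨n - 3, by omega⟩
  have hkd : k.det ≠ 0 := hS.det k hk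
  refine ⟨{x | k * (E x : Mt (3 + m)) ∈ S}, ?_, ?_, ?_⟩
  · constructor
    · intro x hx
      have h1 := hS.det _ hx
      rw [Matrix.det_mul, E_det] at h1
      exact right_ne_zero_of_mul h1
    · intro x x0 hx hlim h0
      have h1 : Tendsto (fun t => k * (E (x t) : Mt (3 + m))) atTop (𝓝 (k * E x0)) := by
        have h2 : Continuous (fun y : Mt 3 => k * (E y : Mt (3 + m))) := continuous_const.matrix_mul E_cont
        exact (h2.tendsto x0).comp hlim
      refine hS.cl _ _ hx h1 ?_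
      rw [Matrix.det_mul, E_det]
      exact mul_ne_zero hkd h0
    · intro x hx σ
      have h1 := hS.perm _ hx (ep σ)
      show k * (E (x.submatrix id σ) : Mt (3 + m)) ∈ S
      have h2 : k * (E (x.submatrix id σ) : Mt (3 + m)) = (k * (E x : Mt (3 + m))).submatrix id (ep σ) := by
        rw [E_perm]
        ext i j
        simp only [Matrix.mul_apply, Matrix.submatrix_apply, id]
      rw [h2]
      exact h1
    · intro x hx d hd
      have h1 := hS.diag _ hx (ed d) (by
        intro i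
        refine Fin.addCases (fun a => ?_) (fun a => ?_) i
        · rw [ed_l]; exact hd a
        · rw [ed_r]; exact one_ne_zero)
      show k * (E (x * diagonal d) : Mt (3 + m)) ∈ S
      rw [E_mul, E_diag, ← Matrix.mul_assoc]
      exact h1
    · intro x hx x' hx' u l hu hl hld h
      show k * (E (x * u) : Mt (3 + m)) ∈ S
      rw [E_mul, ← Matrix.mul_assoc]
      refine hS.s3 _ hx _ hx' (E u) (E l) (E_upp hu) (E_low hl) (by rw [E_det]; exact hld) ?_
      rw [Matrix.mul_assoc, Matrix.mul_assoc, ← E_mul, ← E_mul, h]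
    · intro x hx γ hγ
      rw [Subgroup.mem_bot] at hγ
      subst hγ
      show k * (E ((1 : SLn 3).1 * x) : Mt (3 + m)) ∈ S
      rw [Matrix.SpecialLinearGroup.coe_one, Matrix.one_mul]
      exact hx
  · show k * (E 1 : Mt (3 + m)) ∈ S
    rw [E_one, Matrix.mul_one]
    exact hk
  · intro i j c _
    show k * (E (Matrix.transvection i j c) : Mt (3 + m)) ∈ S ↔ _
    rw [E_trans]
    exact Iff.rfl

end Pool.Agent.Helper42.PR
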